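import Pool.Agent.helper20.SOL.SpecE

set_option autoImplicit false

/-! Row sol:REP (helper79). -/

namespace Pool.Agent.SOL

open Pool.Agent.helper54.SOG Finset

open scoped BigOperators

/-- a signed permutation of the coordinates -/
def REP_g (σ : Equiv.Perm (Fin 8)) (ε : Fin 8 → ℤ) (z : Vec 8) : Vec 8 := fun i => ε i * z (σ i)

theorem REP_dp {σ : Equiv.Perm (Fin 8)} {ε : Fin 8 → ℤ} (hε : ∀ i, ε i = 1 ∨ ε i = -1)
    (a b : Vec 8) : dp (REP_g σ ε a) (REP_g σ ε b) = dp a b := by
  unfold dp REP_g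
  rw [← Equiv.sum_comp σ (fun i => a i * b i)]
  refine Finset.sum_congr rfl fun i _ => ?_
  rcases hε i with h | h <;> rw [h] <;> ring

theorem REP_inj {σ : Equiv.Perm (Fin 8)} {ε : Fin 8 → ℤ} (hε : ∀ i, ε i = 1 ∨ ε i = -1) :
    Function.Injective (REP_g σ ε) := by
  intro a b hab
  funext i
  have h1 := congrFun hab (σ.symm i)
  unfold REP_g at h1
  rw [Equiv.apply_symm_apply] at h1
  rcases hε (σ.symm i) with h | h <;> rw [h] at h1 <;> linarith

theorem REP_EL {σ : Equiv.Perm (Fin 8)} {ε : Fin 8 → ℤ} (hε : ∀ i, ε i = 1 ∨ ε i = -1)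
    (hp : ∏ i, ε i = 1) {z : Vec 8} (hz : z ∈ EL) : REP_g σ ε z ∈ EL := by
  obtain ⟨h1, h2⟩ := hz
  have hpar : ∀ i, REP_g σ ε z i % 2 = z (σ i) % 2 := by
    intro i
    unfold REP_g
    rcases hε i with h | h <;> rw [h] <;> omega
  refine ⟨fun i j => by rw [hpar, hpar]; exact h1 _ _, ?_⟩
  -- the set of negative signs
  let M : Finset (Fin 8) := univ.filter fun i => ε i = -1
  have hM : Even M.card := by
    have h3 : ∏ i, ε i = (-1 : ℤ) ^ M.card := by
      rw [← Finset.prod_const, Finset.prod_filter]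
      refine Finset.prod_congr rfl fun i _ => ?_
      rcases hε i with h | h <;> simp [h]
    rw [h3] at hp
    rcases Nat.even_or_odd M.card with h | h
    · exact h
    · rw [h.neg_one_pow] at hp
      norm_num at hp
  have hsum : ∑ i, REP_g σ ε z i = ∑ i, z i - 2 * ∑ i ∈ M, z (σ i) := by
    rw [← Equiv.sum_comp σ z, Finset.sum_filter, Finset.mul_sum, ← Finset.sum_sub_distrib]
    refine Finset.sum_congr rfl fun i _ => ?_
    unfold REP_g
    rcases hε i with h | h
    · rw [h]; norm_num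
    · rw [h, if_pos rfl]; ring
  have heven : (∑ i ∈ M, z (σ i)) % 2 = 0 := by
    have h3 : (∑ i ∈ M, z (σ i)) % 2 = (∑ i ∈ M, z 0) % 2 := by
      rw [Finset.sum_int_mod, Finset.sum_int_mod M 2 (fun _ => z 0)]
      congr 1
      exact Finset.sum_congr rfl fun i _ => h1 _ _
    rw [h3, Finset.sum_const]
    obtain ⟨c, hc⟩ := hM
    rw [hc, nsmul_eq_mul]
    push_cast
    have : ((c : ℤ) + c) * z 0 = 2 * (c * z 0) := by ring
    rw [this]
    exact Int.mul_emod_right 2 _
  rw [hsum]
  omega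

theorem REP_add (σ : Equiv.Perm (Fin 8)) (ε : Fin 8 → ℤ) (S : Finset (Vec 8)) :
    ∑ a ∈ S, REP_g σ ε a = REP_g σ ε (∑ a ∈ S, a) := by
  funext i
  unfold REP_g
  rw [Finset.sum_apply, Finset.sum_apply, Finset.mul_sum]

theorem REP_VE {σ : Equiv.Perm (Fin 8)} {ε : Fin 8 → ℤ} (hε : ∀ i, ε i = 1 ∨ ε i = -1)
    {P : Set (Vec 8)} (hP : ∀ z ∈ P, REP_g σ ε z ∈ P) {k : ℕ} {y : Vec 8} (hy : y ∈ VE P k) :
    REP_g σ ε y ∈ VE P k := by
  classical
  obtain ⟨S, h1, h2, h3, h4⟩ := hy
  refine ⟨S.image (REP_g σ ε), ?_, ?_, ?_, ?_⟩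
  · rw [Finset.card_image_of_injective _ (REP_inj hε), h1]
  · intro a ha
    obtain ⟨b, hb, rfl⟩ := Finset.mem_image.1 ha
    exact hP b (h2 b hb)
  · intro a ha b hb hab
    obtain ⟨a', ha', rfl⟩ := Finset.mem_image.1 ha
    obtain ⟨b', hb', rfl⟩ := Finset.mem_image.1 hb
    rw [REP_dp hε]
    exact h3 a' ha' b' hb' fun h => hab (by rw [h])
  · rw [Finset.sum_image fun a _ b _ h => REP_inj hε h, REP_add, h4]

theorem REP_perm (N : ℕ) (x y : Vec 8) (hv : ∀ v : ℤ, cN N x v = cN N y v) :
    ∃ σ : Equiv.Perm (Fin 8), (∀ i, N ≤ i.val → σ i = i) ∧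
      ∀ i : Fin 8, i.val < N → |y (σ i)| = |x i| := by
  classical
  let F : Vec 8 → Fin 8 → ℤ × ℤ := fun x i => if i.val < N then (0, |x i|) else (1, (i.val : ℤ))
  have hfib : ∀ c : ℤ × ℤ, Nonempty ({i // F x i = c} ≃ {i // F y i = c}) := by
    intro c
    rw [← Fintype.card_eq, Fintype.card_subtype, Fintype.card_subtype]
    by_cases hc : c.1 = 0
    · have h1 : ∀ z : Vec 8, (univ.filter fun i => F z i = c) =
          univ.filter fun i : Fin 8 => i.val < N ∧ |z i| = c.2 := by
        intro z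
        ext i
        simp only [Finset.mem_filter, Finset.mem_univ, true_and]
        by_cases hi : i.val < N
        · simp only [F, if_pos hi, hi, true_and, Prod.ext_iff, hc]
        · simp only [F, if_neg hi, hi, false_and, Prod.ext_iff, hc]
          norm_num
      rw [h1, h1]
      exact hv c.2
    · congr 1
      ext i
      simp only [Finset.mem_filter, Finset.mem_univ, true_and]
      by_cases hi : i.val < N
      · simp only [F, if_pos hi, Prod.ext_iff]
        constructor
        · intro h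
          exact absurd h.1.symm hc
        · intro h
          exact absurd h.1.symm hc
      · simp only [F, if_neg hi]
  let σ : Equiv.Perm (Fin 8) :=
    Equiv.ofFiberEquiv (f := F x) (g := F y) fun c => (hfib c).some
  have hσ : ∀ i, F y (σ i) = F x i := fun i => Equiv.ofFiberEquiv_map _ i
  refine ⟨σ, ?_, ?_⟩
  · intro i hi
    have h1 := hσ i
    by_cases h2 : (σ i).val < N
    · simp only [F, if_pos h2, if_neg (not_lt.2 hi), Prod.mk.injEq] at h1
      exact absurd h1.1 (by norm_num)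
    · simp only [F, if_neg h2, if_neg (not_lt.2 hi), Prod.mk.injEq, true_and] at h1
      exact Fin.ext (by exact_mod_cast h1)
  · intro i hi
    have h1 := hσ i
    by_cases h2 : (σ i).val < N
    · simp only [F, if_pos h2, if_pos hi, Prod.mk.injEq, true_and] at h1
      exact h1
    · simp only [F, if_neg h2, if_pos hi, Prod.mk.injEq] at h1
      exact absurd h1.1 (by norm_num)

theorem REP_ex (N : ℕ) (x y : Vec 8) (hag : ∀ i : Fin 8, N ≤ i.val → x i = y i)
    (hv : ∀ v : ℤ, cN N x v = cN N y v) (hpN : pN N x = pN N y) :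
    ∃ (σ : Equiv.Perm (Fin 8)) (ε : Fin 8 → ℤ), (∀ i, N ≤ i.val → σ i = i) ∧
      (∀ i, ε i = 1 ∨ ε i = -1) ∧ (∀ i, N ≤ i.val → ε i = 1) ∧ ∏ i, ε i = 1 ∧
      x = REP_g σ ε y := by
  classical
  obtain ⟨σ, h1, h2⟩ := REP_perm N x y hv
  let δ : Fin 8 → ℤ := fun i => if x i = y (σ i) then 1 else -1
  have hδ1 : ∀ i, δ i = 1 ∨ δ i = -1 := by
    intro i
    by_cases h : x i = y (σ i)
    · exact Or.inl (if_pos h)
    · exact Or.inr (if_neg h)
  have hδN : ∀ i : Fin 8, N ≤ i.val → δ i = 1 := by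
    intro i hi
    have : x i = y (σ i) := by rw [h1 i hi, hag i hi]
    exact if_pos this
  have hδx : ∀ i, x i = δ i * y (σ i) := by
    intro i
    by_cases h : x i = y (σ i)
    · simp only [δ, if_pos h, one_mul]
      exact h
    · have hi : i.val < N := by
        by_contra hi
        exact h (by rw [h1 i (not_lt.1 hi), hag i (not_lt.1 hi)])
      simp only [δ, if_neg h]
      rcases abs_eq_abs.1 (h2 i hi) with h3 | h3
      · exact absurd h3.symm h
      · rw [h3]; ring
  by_cases h0 : ∃ i : Fin 8, i.val < N ∧ x i = 0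
  · obtain ⟨i0, hi0, hx0⟩ := h0
    have hy0 : y (σ i0) = 0 := by
      have := h2 i0 hi0
      rw [hx0, abs_zero, abs_eq_zero] at this
      exact this
    have hpd : (∏ i, δ i) = 1 ∨ (∏ i, δ i) = -1 := by
      have hsq : (∏ i, δ i) * (∏ i, δ i) = 1 := by
        rw [← Finset.prod_mul_distrib]
        refine Finset.prod_eq_one fun i _ => ?_
        rcases hδ1 i with h | h <;> rw [h] <;> norm_num
      exact mul_self_eq_one_iff.1 hsq
    refine ⟨σ, Function.update δ i0 (δ i0 * ∏ i, δ i), h1, ?_, ?_, ?_, ?_⟩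
    · intro i
      by_cases hi : i = i0
      · subst hi
        rw [Function.update_self]
        rcases hδ1 i with h | h <;> rcases hpd with h' | h' <;> rw [h, h'] <;> norm_num
      · rw [Function.update_of_ne hi]
        exact hδ1 i
    · intro i hi
      have hne : i ≠ i0 := by
        rintro rfl
        omega
      rw [Function.update_of_ne hne]
      exact hδN i hi
    · rw [Finset.prod_update_of_mem (Finset.mem_univ i0)]
      have h3 : ∏ i, δ i = δ i0 * ∏ i ∈ univ \ {i0}, δ i := by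
        rw [Finset.sdiff_singleton_eq_erase, Finset.mul_prod_erase _ _ (Finset.mem_univ i0)]
      have h4 : δ i0 * (∏ i, δ i) * ∏ i ∈ univ \ {i0}, δ i = (∏ i, δ i) * (∏ i, δ i) := by
        nth_rewrite 3 [h3]
        ring
      rw [h4]
      rcases hpd with h' | h' <;> rw [h'] <;> norm_num
    · funext i
      unfold REP_g
      by_cases hi : i = i0
      · subst hi
        rw [hy0, mul_zero, hx0]
      · rw [Function.update_of_ne hi]
        exact hδx i
  · refine ⟨σ, δ, h1, hδ1, hδN, ?_, funext hδx⟩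
    have h3 : ∀ i : Fin 8, i.val < N → x i ≠ 0 := fun i hi hx => h0 ⟨i, hi, hx⟩
    have h4 : pN N x ≠ 0 := by
      unfold pN
      rw [Finset.prod_ne_zero_iff]
      intro i hi
      exact h3 i (Finset.mem_filter.1 hi).2
    have h5 : pN N x = (∏ i ∈ univ.filter (fun i : Fin 8 => i.val < N), δ i) * pN N y := by
      unfold pN
      rw [← Equiv.Perm.prod_comp σ (univ.filter fun i : Fin 8 => i.val < N) y, 
        ← Finset.prod_mul_distrib]
      · exact Finset.prod_congr rfl fun i _ => hδx i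
      · intro i hi
        rw [Finset.coe_filter]
        refine ⟨Finset.mem_univ i, ?_⟩
        by_contra hn
        exact hi (h1 i (not_lt.1 hn))
    have h6 : ∏ i ∈ univ.filter (fun i : Fin 8 => i.val < N), δ i = 1 := by
      rw [← hpN] at h5
      have : (∏ i ∈ univ.filter (fun i : Fin 8 => i.val < N), δ i - 1) * pN N x = 0 := by
        linear_combination -h5
      rcases mul_eq_zero.1 this with h | h
      · linarith
      · exact absurd h h4
    rw [← h6, Finset.prod_filter]
    refine Finset.prod_congr rfl fun i _ => ?_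
    by_cases hi : i.val < N
    · rw [if_pos hi]
    · rw [if_neg hi]
      exact hδN i (not_lt.1 hi)

theorem REP : REP_stmt := by
  intro k x y
  refine ⟨?_, ?_, ?_⟩
  · intro hv hp hy
    obtain ⟨σ, ε, h1, h2, h3, h4, rfl⟩ := REP_ex 8 x y
      (fun i hi => absurd i.isLt (not_lt.2 hi)) hv hp
    refine REP_VE h2 ?_ hy
    intro z hz
    exact ⟨REP_EL h2 h4 hz.1, by rw [REP_dp h2]; exact hz.2⟩
  · intro hag hv hp hy
    obtain ⟨σ, ε, h1, h2, h3, h4, rfl⟩ := REP_ex 6 x y hag hv hp
    refine REP_VE h2 ?_ hy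
    intro z hz
    have hc : ∀ i : Fin 8, 6 ≤ i.val → REP_g σ ε z i = z i := by
      intro i hi
      unfold REP_g
      rw [h1 i hi, h3 i hi, one_mul]
    refine ⟨REP_EL h2 h4 hz.1, ?_, by rw [REP_dp h2]; exact hz.2.2⟩
    rw [hc 6 (by decide), hc 7 (by decide)]
    exact hz.2.1
  · intro hag hv hp hy
    obtain ⟨σ, ε, h1, h2, h3, h4, rfl⟩ := REP_ex 5 x y hag hv hp
    refine REP_VE h2 ?_ hy
    intro z hz
    have hc : ∀ i : Fin 8, 5 ≤ i.val → REP_g σ ε z i = z i := by
      intro i hi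
      unfold REP_g
      rw [h1 i hi, h3 i hi, one_mul]
    refine ⟨REP_EL h2 h4 hz.1, ?_, ?_, by rw [REP_dp h2]; exact hz.2.2.2⟩
    · rw [hc 6 (by decide), hc 7 (by decide)]
      exact hz.2.1
    · rw [hc 5 (by decide), hc 6 (by decide)]
      exact hz.2.2.1

end Pool.Agent.SOL
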