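import Pool.Agent.helper1.SOL.SpecN

set_option autoImplicit false

/-! Row sol:F4S (helper79). -/

namespace Pool.Agent.SOL

open Pool.Agent.helper54.SOG Finset

open scoped BigOperators

/-- half of an integer vector -/
noncomputable def F4S_f : Vec 4 →+ (Fin 4 → ℝ) where
  toFun x := fun i => (x i : ℝ) / 2
  map_zero' := by
    funext i
    simp
  map_add' x y := by
    funext i
    simp only [Pi.add_apply, Int.cast_add]
    ring

theorem F4S_f_apply (x : Vec 4) (i : Fin 4) : F4S_f x i = (x i : ℝ) / 2 := rfl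

theorem F4S_inj : Function.Injective F4S_f := by
  intro x y h
  funext i
  have h1 := congrFun h i
  rw [F4S_f_apply, F4S_f_apply] at h1
  have h2 : (x i : ℝ) = (y i : ℝ) := by linarith
  exact_mod_cast h2

theorem F4S_single (i : Fin 4) (s : ℤ) :
    F4S_f (Pi.single i (2 * s)) = Pi.single i (s : ℝ) := by
  funext l
  rw [F4S_f_apply]
  by_cases h : l = i
  · subst h
    rw [Pi.single_eq_same, Pi.single_eq_same]
    push_cast
    ring
  · rw [Pi.single_eq_of_ne h, Pi.single_eq_of_ne h]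
    simp

theorem F4S_d1 : ∀ i j : Fin 4, i ≠ j → ∀ s ∈ ({1, -1} : Finset ℤ), ∀ t ∈ ({1, -1} : Finset ℤ),
    dp (Pi.single i (2 * s) + Pi.single j (2 * t) : Vec 4)
      (Pi.single i (2 * s) + Pi.single j (2 * t) : Vec 4) = 8 ∧
    ∀ l, (Pi.single i (2 * s) + Pi.single j (2 * t) : Vec 4) l % 2 = 0 := by
  decide +kernel

theorem F4S_d2 : ∀ i : Fin 4, ∀ s ∈ ({1, -1} : Finset ℤ),
    dp (Pi.single i (2 * s) : Vec 4) (Pi.single i (2 * s) : Vec 4) = 4 := by
  decide +kernel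

theorem F4S_d3 : ∀ a ∈ ({1, -1} : Finset ℤ), ∀ b ∈ ({1, -1} : Finset ℤ),
    ∀ c ∈ ({1, -1} : Finset ℤ), ∀ d ∈ ({1, -1} : Finset ℤ),
    dp (![a, b, c, d] : Vec 4) ![a, b, c, d] = 4 := by
  decide +kernel

theorem F4S_d4 : ∀ a ∈ Finset.Icc (-2 : ℤ) 2, ∀ b ∈ Finset.Icc (-2 : ℤ) 2,
    ∀ c ∈ Finset.Icc (-2 : ℤ) 2, ∀ d ∈ Finset.Icc (-2 : ℤ) 2,
    (a * a + b * b + c * c + d * d = 4 ∨ (a * a + b * b + c * c + d * d = 8 ∧
      a % 2 = 0 ∧ b % 2 = 0 ∧ c % 2 = 0 ∧ d % 2 = 0)) →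
    (∃ i j : Fin 4, i ≠ j ∧ ∃ s ∈ ({1, -1} : Finset ℤ), ∃ t ∈ ({1, -1} : Finset ℤ),
      (![a, b, c, d] : Vec 4) = Pi.single i (2 * s) + Pi.single j (2 * t)) ∨
    (∃ i : Fin 4, ∃ s ∈ ({1, -1} : Finset ℤ), (![a, b, c, d] : Vec 4) = Pi.single i (2 * s)) ∨
    (∀ i, (![a, b, c, d] : Vec 4) i = 1 ∨ (![a, b, c, d] : Vec 4) i = -1) := by
  decide +kernel

theorem F4S_bd (a : ℤ) (h : a * a ≤ 8) : a ∈ Finset.Icc (-2 : ℤ) 2 := by
  rw [Finset.mem_Icc]
  constructor <;> nlinarith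

theorem F4S_sgn (s : ℝ) (hs : s = 1 ∨ s = -1) : ∃ s' ∈ ({1, -1} : Finset ℤ), (s' : ℝ) = s := by
  rcases hs with rfl | rfl
  · exact ⟨1, by decide, by norm_num⟩
  · exact ⟨-1, by decide, by norm_num⟩

theorem F4S_sgn2 (s : ℤ) (hs : s ∈ ({1, -1} : Finset ℤ)) : (s : ℝ) = 1 ∨ (s : ℝ) = -1 := by
  rw [Finset.mem_insert, Finset.mem_singleton] at hs
  rcases hs with rfl | rfl
  · left; norm_num
  · right; norm_num

theorem F4S_roots : rootsF4 = F4S_f '' RF4 := by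
  ext v
  constructor
  · rintro ((⟨i, j, hij, s, t, hs, ht, rfl⟩ | ⟨i, s, hs, rfl⟩) | hv)
    · obtain ⟨s', hs', rfl⟩ := F4S_sgn s hs
      obtain ⟨t', ht', rfl⟩ := F4S_sgn t ht
      refine ⟨Pi.single i (2 * s') + Pi.single j (2 * t'), Or.inr (F4S_d1 i j hij s' hs' t' ht'), ?_⟩
      rw [map_add, F4S_single, F4S_single]
    · obtain ⟨s', hs', rfl⟩ := F4S_sgn s hs
      exact ⟨Pi.single i (2 * s'), Or.inl (F4S_d2 i s' hs'), F4S_single i s'⟩
    · have h1 : ∀ i, ∃ a ∈ ({1, -1} : Finset ℤ), (a : ℝ) / 2 = v i := by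
        intro i
        rcases hv i with h | h
        · exact ⟨1, by decide, by rw [h]; norm_num⟩
        · exact ⟨-1, by decide, by rw [h]; norm_num⟩
      obtain ⟨a, ha, ha'⟩ := h1 0
      obtain ⟨b, hb, hb'⟩ := h1 1
      obtain ⟨c, hc, hc'⟩ := h1 2
      obtain ⟨d, hd, hd'⟩ := h1 3
      refine ⟨![a, b, c, d], Or.inl (F4S_d3 a ha b hb c hc d hd), ?_⟩
      funext i
      rw [F4S_f_apply]
      fin_cases i
      · exact ha'
      · exact hb'
      · exact hc'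
      · exact hd'
  · rintro ⟨x, hx, rfl⟩
    have hd : dp x x = x 0 * x 0 + x 1 * x 1 + x 2 * x 2 + x 3 * x 3 := by
      unfold dp
      rw [Fin.sum_univ_four]
    have hxe : x = ![x 0, x 1, x 2, x 3] := by
      funext i
      fin_cases i <;> rfl
    have p0 := mul_self_nonneg (x 0)
    have p1 := mul_self_nonneg (x 1)
    have p2 := mul_self_nonneg (x 2)
    have p3 := mul_self_nonneg (x 3)
    have h8 : x 0 * x 0 + x 1 * x 1 + x 2 * x 2 + x 3 * x 3 ≤ 8 := by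
      rcases hx with h | ⟨h, -⟩
      · rw [hd] at h
        omega
      · rw [hd] at h
        omega
    have h1 := F4S_d4 (x 0) (F4S_bd _ (by linarith)) (x 1) (F4S_bd _ (by linarith)) (x 2)
      (F4S_bd _ (by linarith)) (x 3) (F4S_bd _ (by linarith)) (by
        rcases hx with h | ⟨h, h'⟩
        · rw [hd] at h
          exact Or.inl h
        · rw [hd] at h
          exact Or.inr ⟨h, h' 0, h' 1, h' 2, h' 3⟩)
    rw [← hxe] at h1
    rcases h1 with ⟨i, j, hij, s, hs, t, ht, h⟩ | ⟨i, s, hs, h⟩ | h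
    · left; left
      refine ⟨i, j, hij, s, t, F4S_sgn2 s hs, F4S_sgn2 t ht, ?_⟩
      rw [h, map_add, F4S_single, F4S_single]
    · left; right
      refine ⟨i, s, F4S_sgn2 s hs, ?_⟩
      rw [h, F4S_single]
    · right
      intro i
      rw [F4S_f_apply]
      rcases h i with h | h
      · left; rw [h]; norm_num
      · right; rw [h]; norm_num

theorem F4S : F4S_stmt := by
  intro k
  rw [F4S_roots, sosSums_image F4S_f F4S_inj]
  rfl

end Pool.Agent.SOL
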