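import Pool.Agent.helper1.SOL.SpecN

set_option autoImplicit false

/-! Row sol:MON (helper79). -/

namespace Pool.Agent.SOL

open Pool.Agent.helper54.SOG Finset

open scoped BigOperators

theorem MON_gen {n m : ℕ} (a b : Vec m) (hab : a ≠ b) (S : Set (Vec n)) (S' : Set (Vec (n + m)))
    (hS' : S'.Finite) (hne : S.Nonempty) (ha : ∀ x ∈ S, (Fin.append x a : Vec (n + m)) ∈ S')
    (hb : ∀ x ∈ S, (Fin.append x b : Vec (n + m)) ∈ S') : S.ncard < S'.ncard := by
  have hinj : Function.Injective (fun x : Vec n => (Fin.append x a : Vec (n + m))) := by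
    intro x y hxy
    funext i
    have := congrFun hxy (Fin.castAdd m i)
    simp only [Fin.append_left] at this
    exact this
  rw [← Set.ncard_image_of_injective S hinj]
  apply Set.ncard_lt_ncard _ hS'
  obtain ⟨x, hx⟩ := hne
  refine Set.ssubset_iff_subset_ne.2 ⟨?_, ?_⟩
  · rintro _ ⟨y, hy, rfl⟩
    exact ha y hy
  · intro h
    have h1 := hb x hx
    rw [← h] at h1
    obtain ⟨y, -, hy⟩ := h1
    apply hab
    funext i
    have := congrFun hy (Fin.natAdd n i)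
    simp only [Fin.append_right] at this
    exact this

theorem MON_dp {n m : ℕ} (x : Vec n) (a : Vec m) :
    dp (Fin.append x a : Vec (n + m)) (Fin.append x a : Vec (n + m)) = dp x x + dp a a := by
  unfold dp
  rw [Fin.sum_univ_add]
  simp only [Fin.append_left, Fin.append_right]

theorem MON_l1 {n m : ℕ} (x : Vec n) (a : Vec m) :
    l1 (Fin.append x a : Vec (n + m)) = l1 x + l1 a := by
  unfold l1
  rw [Fin.sum_univ_add]
  simp only [Fin.append_left, Fin.append_right]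

theorem MON_le {n m : ℕ} (x : Vec n) (a : Vec m) (hx : ∀ i, |x i| ≤ 2) (ha : ∀ i, |a i| ≤ 2)
    (i : Fin (n + m)) : |(Fin.append x a : Vec (n + m)) i| ≤ 2 := by
  refine Fin.addCases (fun j => ?_) (fun j => ?_) i
  · rw [Fin.append_left]
    exact hx j
  · rw [Fin.append_right]
    exact ha j

theorem MON_B (n k : ℕ) (a : Vec 2) (ha : a = ![2, 0] ∨ a = ![-2, 0]) (x : Vec n)
    (hx : x ∈ VB n k) : (Fin.append x a : Vec (n + 2)) ∈ VB (n + 2) (k + 2) := by
  obtain ⟨h1, h2, h3⟩ := hx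
  have ha1 : dp a a = 4 := by
    rcases ha with rfl | rfl <;> decide
  have ha2 : l1 a = 2 := by
    rcases ha with rfl | rfl <;> decide
  have ha3 : ∀ i, |a i| ≤ 2 := by
    rcases ha with rfl | rfl <;> decide
  refine ⟨MON_le x a h1 ha3, ?_, ?_⟩
  · rw [MON_dp, ha1]
    push_cast
    rcases h2 with h2 | h2
    · left; rw [h2]; ring
    · right; rw [h2]; ring
  · rw [MON_l1, ha2]
    push_cast
    linarith

theorem MON_C (n k : ℕ) (a : Vec 3) (ha : a = ![2, 2, 0] ∨ a = ![-2, 2, 0]) (x : Vec n)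
    (hx : x ∈ VC n k) : (Fin.append x a : Vec (n + 3)) ∈ VC (n + 3) (k + 2) := by
  obtain ⟨h1, h2⟩ := hx
  have ha2 : l1 a = 4 := by
    rcases ha with rfl | rfl <;> decide
  have ha3 : ∀ i, |a i| ≤ 2 := by
    rcases ha with rfl | rfl <;> decide
  refine ⟨MON_le x a h1 ha3, ?_⟩
  rw [MON_l1, ha2, h2]
  push_cast
  ring

theorem MON_Bne (κ : ℕ) : (VB (2 * κ + 1) (2 * κ)).Nonempty := by
  induction κ with
  | zero =>
    refine ⟨0, fun i => by simp, Or.inl ?_, ?_⟩
    · simp [dp]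
    · simp [l1]
  | succ κ ih =>
    obtain ⟨x, hx⟩ := ih
    exact ⟨_, MON_B _ _ ![2, 0] (Or.inl rfl) x hx⟩

theorem MON_Cne (κ : ℕ) : (VC (3 * κ) (2 * κ)).Nonempty := by
  induction κ with
  | zero =>
    refine ⟨0, fun i => by simp, ?_⟩
    simp [l1]
  | succ κ ih =>
    obtain ⟨x, hx⟩ := ih
    exact ⟨_, MON_C _ _ ![2, 2, 0] (Or.inl rfl) x hx⟩

theorem MON (hBTY : BTY_stmt) : MON_stmt := by
  obtain ⟨-, -, -, -, -, -, -, hfin⟩ := hBTY
  have hB : StrictMono fun κ : ℕ => (VB (2 * κ + 1) (2 * κ)).ncard := by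
    apply strictMono_nat_of_lt_succ
    intro κ
    exact MON_gen (n := 2 * κ + 1) (m := 2) ![2, 0] ![-2, 0] (by decide) _ (VB (2 * κ + 1 + 2) (2 * κ + 2))
      (hfin _ _).1 (MON_Bne κ) (MON_B _ _ _ (Or.inl rfl)) (MON_B _ _ _ (Or.inr rfl))
  have hC : StrictMono fun κ : ℕ => (VC (3 * κ) (2 * κ)).ncard := by
    apply strictMono_nat_of_lt_succ
    intro κ
    exact MON_gen (n := 3 * κ) (m := 3) ![2, 2, 0] ![-2, 2, 0] (by decide) _ (VC (3 * κ + 3) (2 * κ + 2))
      (hfin _ _).2 (MON_Cne κ) (MON_C _ _ _ (Or.inl rfl)) (MON_C _ _ _ (Or.inr rfl))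
  exact ⟨fun κ κ' _ h => hB h, fun κ κ' _ h => hC h⟩

end Pool.Agent.SOL
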